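import Mathlib
import Pool.Agent.H19.Maass.Frostman
import Pool.Agent.H19.WB.GlueB

/-!
# Hecke-Maass forms at almost every point

For a measure `ν` with `ν (B(w, ρ)) ≤ B ρ ^ θ`, `1 ≤ θ ≤ 2`, and `a > (1 + θ) / (4 θ)`: at `ν`-almost every point `z` all forms
of an orthogonal sequence satisfy `|U_j(z)| ≤ C_z t_j ^ a`.

Proof. In a unit window at height `k` all but `O(k ^ (1/2 + ε))` forms are below `C k ^ (3/8)` on the whole of `K`
(`WB.almost_all`, `δ = 0`). For each of the others `ν {z ∈ K : |U_j(z)| > C t_j ^ a} ≤ C B k ^ (3θ/2 + ε - 6θa)` by the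
`L^(6θ)` bound (`Maass.frostman`) and Markov's inequality. Sum over the windows.
-/

set_option autoImplicit false

namespace Pool.Agent.H19.AE

open MeasureTheory Pool.Agent.H19.Maass
open scoped ENNReal

/-- the exceptional forms of a window form a finite set of controlled size -/
lemma exc_finite {T V M : ℝ} {K : Set ℂ}
    (hall : ∀ (n : ℕ) (t : Fin n → ℝ) (U : Fin n → ℂ → ℂ), (∀ j, T ≤ t j ∧ t j ≤ T + 1) →
      (∀ j, IsHeckeMaass (t j) (U j)) → (∀ i j, i ≠ j → OrthForms (U i) (U j)) →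
      (∀ j, ∃ z ∈ K, V < ‖U j z‖) → (n : ℝ) ≤ M)
    {t : ℕ → ℝ} {U : ℕ → ℂ → ℂ} (hU : ∀ j, IsHeckeMaass (t j) (U j))
    (ho : ∀ i j, i ≠ j → OrthForms (U i) (U j)) :
    ∃ s : Finset ℕ, (s.card : ℝ) ≤ M ∧
      ∀ j, j ∈ s ↔ (T ≤ t j ∧ t j ≤ T + 1) ∧ ∃ z ∈ K, V < ‖U j z‖ := by
  set E : Set ℕ := {j | (T ≤ t j ∧ t j ≤ T + 1) ∧ ∃ z ∈ K, V < ‖U j z‖} with hE
  have key : ∀ s : Finset ℕ, (s : Set ℕ) ⊆ E → (s.card : ℝ) ≤ M := by
    intro s hs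
    let e : Fin s.card ≃ s := s.equivFin.symm
    have he : ∀ i, ((e i : ℕ)) ∈ E := fun i => hs (e i).2
    refine hall s.card (fun i => t (e i)) (fun i => U (e i)) (fun i => (he i).1) (fun i => hU _) ?_
      (fun i => (he i).2)
    intro i j hij
    exact ho _ _ fun h => hij (e.injective (Subtype.ext h))
  have hfin : E.Finite := by
    by_contra hinf
    obtain ⟨s, hs, hcard⟩ := Set.Infinite.exists_subset_card_eq hinf (⌊M⌋₊ + 1)
    have h := key s hs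
    rw [hcard] at h
    have := Nat.lt_floor_add_one M
    push_cast at h
    linarith
  refine ⟨hfin.toFinset, key _ (by simp), fun j => by simp [hE]⟩

/-- Markov's inequality -/
lemma markov {K : Set ℂ} (hK : IsCompact K) (hKU : K ⊆ {z : ℂ | 0 < z.im}) {θ : ℝ} (hθ : 1 ≤ θ)
    {T : ℝ} {U : ℂ → ℂ} (hU : IsHeckeMaass T U) {ν : Measure ℂ} {R c : ℝ} (hc : 0 < c)
    (h : ∫⁻ z in K, ENNReal.ofReal (‖U z‖ ^ (6 * θ)) ∂ν ≤ ENNReal.ofReal R) :
    ν (K ∩ {z | c < ‖U z‖}) ≤ ENNReal.ofReal (R / c ^ (6 * θ)) := by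
  have hcont : ContinuousOn (fun z => ENNReal.ofReal (‖U z‖ ^ (6 * θ))) K := by
    refine ENNReal.continuous_ofReal.comp_continuousOn ?_
    refine ContinuousOn.rpow_const (hU.smooth.continuousOn.mono hKU).norm fun z _ => Or.inr (by linarith)
  have hm := mul_meas_ge_le_lintegral₀ (μ := ν.restrict K) (hcont.aemeasurable hK.measurableSet)
    (ENNReal.ofReal (c ^ (6 * θ)))
  have h1 : ν (K ∩ {z | c < ‖U z‖}) ≤
      (ν.restrict K) {z | ENNReal.ofReal (c ^ (6 * θ)) ≤ ENNReal.ofReal (‖U z‖ ^ (6 * θ))} := by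
    rw [Set.inter_comm]
    refine le_trans (measure_mono ?_) (Measure.le_restrict_apply _ _)
    refine Set.inter_subset_inter_left _ fun z hz => ?_
    exact ENNReal.ofReal_le_ofReal (Real.rpow_le_rpow hc.le (le_of_lt hz) (by linarith))
  have hcp : 0 < c ^ (6 * θ) := Real.rpow_pos_of_pos hc _
  rw [ENNReal.ofReal_div_of_pos hcp]
  rw [ENNReal.le_div_iff_mul_le (Or.inl (by simpa using hcp)) (Or.inl ENNReal.ofReal_ne_top), mul_comm]
  exact (mul_le_mul_right h1 _).trans (hm.trans h)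

/-- the numbers: one window -/
lemma num_window {k t θ a ε1 C1 B : ℝ} (hk : 1 ≤ k) (ht : k ≤ t) (ht1 : t ≤ k + 1) (hθ : 1 ≤ θ) (ha : 0 ≤ a)
    (he : 0 < ε1) (hC1 : 0 ≤ C1) (hB : 0 ≤ B) {C : ℝ} (hC : 1 ≤ C) :
    C1 * B * t ^ (3 * θ / 2 + ε1) / (C * t ^ a) ^ (6 * θ) ≤
      C1 * B * 2 ^ (3 * θ / 2 + ε1) * k ^ (3 * θ / 2 + ε1 - 6 * θ * a) := by
  have hk0 : 0 < k := by linarith
  have ht0 : 0 < t := by linarith
  have h1 : t ^ (3 * θ / 2 + ε1) ≤ 2 ^ (3 * θ / 2 + ε1) * k ^ (3 * θ / 2 + ε1) := by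
    rw [← Real.mul_rpow (by norm_num) hk0.le]
    exact Real.rpow_le_rpow ht0.le (by linarith) (by linarith)
  have h2 : k ^ (6 * θ * a) ≤ (C * t ^ a) ^ (6 * θ) := by
    have h3 : k ^ (6 * θ * a) = (k ^ a) ^ (6 * θ) := by
      rw [← Real.rpow_mul hk0.le]
      congr 1
      ring
    rw [h3]
    refine Real.rpow_le_rpow (Real.rpow_nonneg hk0.le _) ?_ (by linarith)
    have h4 : k ^ a ≤ t ^ a := Real.rpow_le_rpow hk0.le ht ha
    have h5 : 0 ≤ t ^ a := Real.rpow_nonneg ht0.le _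
    nlinarith
  have h6 : 0 < k ^ (6 * θ * a) := Real.rpow_pos_of_pos hk0 _
  have h7 : k ^ (3 * θ / 2 + ε1 - 6 * θ * a) = k ^ (3 * θ / 2 + ε1) / k ^ (6 * θ * a) := Real.rpow_sub hk0 _ _
  rw [h7]
  have h8 : 0 ≤ C1 * B := mul_nonneg hC1 hB
  calc C1 * B * t ^ (3 * θ / 2 + ε1) / (C * t ^ a) ^ (6 * θ)
      ≤ C1 * B * (2 ^ (3 * θ / 2 + ε1) * k ^ (3 * θ / 2 + ε1)) / k ^ (6 * θ * a) := by
        refine div_le_div₀ ?_ (mul_le_mul_of_nonneg_left h1 h8) h6 h2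
        positivity
    _ = _ := by ring

/-- **Quantitative form.** -/
theorem large_points (K : Set ℂ) (hK : IsCompact K) (hKU : K ⊆ {z : ℂ | 0 < z.im}) (θ a ε : ℝ) (hθ : 1 ≤ θ)
    (hθ2 : θ ≤ 2) (ha : (1 + θ) / (4 * θ) < a) (hε : 0 < ε) : ∃ C : ℝ, 1 ≤ C ∧
    ∀ (ν : Measure ℂ) (B : ℝ), 0 ≤ B →
    (∀ w : ℂ, ∀ ρ : ℝ, 0 < ρ → ν (Metric.closedBall w ρ) ≤ ENNReal.ofReal (B * ρ ^ θ)) →
    ∀ (t : ℕ → ℝ) (U : ℕ → ℂ → ℂ), (∀ j, IsHeckeMaass (t j) (U j)) →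
    (∀ i j, i ≠ j → OrthForms (U i) (U j)) → ∀ X : ℝ, 1 ≤ X →
    ν {z | z ∈ K ∧ ∃ j, X ≤ t j ∧ C * (t j) ^ a < ‖U j z‖} ≤
      ENNReal.ofReal (C * B * X ^ (3 * (1 + θ) / 2 - 6 * θ * a + ε)) := by
  have hθ0 : 0 < θ := by linarith
  have ha' : 1 + θ < 4 * θ * a := by
    rw [div_lt_iff₀ (by positivity)] at ha
    linarith
  set s : ℝ := 3 * (1 + θ) / 2 - 6 * θ * a with hs
  have hs0 : s < 0 := by
    rw [hs]
    linarith
  have ha38 : (3 : ℝ) / 8 ≤ a := by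
    by_contra h
    push Not at h
    have h1 : 4 * θ * a < 4 * θ * (3 / 8) := mul_lt_mul_of_pos_left h (by positivity)
    linarith
  have ha0 : 0 ≤ a := by linarith
  set e : ℝ := min ε (-s / 2) with he
  have he0 : 0 < e := lt_min hε (by linarith)
  have hese : s + e < 0 := by
    have := min_le_right ε (-s / 2)
    linarith
  have heε : e ≤ ε := min_le_left _ _
  obtain ⟨C0, hC0⟩ := Pool.Agent.H19.WB.almost_all K hK hKU 0 (e / 4) le_rfl (by norm_num) (by linarith)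
  obtain ⟨C1, hC1⟩ := frostman K hK hKU θ hθ (e / 4) (by linarith)
  -- the series
  have hsum : ∑' n : ℕ, ENNReal.ofReal ((n : ℝ) ^ (-1 - e / 2)) ≠ ∞ := by
    have h1 : Summable fun n : ℕ => (n : ℝ) ^ (-1 - e / 2) := Real.summable_nat_rpow.2 (by linarith)
    rw [← ENNReal.ofReal_tsum_of_nonneg (fun n => Real.rpow_nonneg (Nat.cast_nonneg n) _) h1]
    exact ENNReal.ofReal_ne_top
  set Z : ℝ := (∑' n : ℕ, ENNReal.ofReal ((n : ℝ) ^ (-1 - e / 2))).toReal with hZ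
  have hZ0 : 0 ≤ Z := ENNReal.toReal_nonneg
  have hZe : ∑' n : ℕ, ENNReal.ofReal ((n : ℝ) ^ (-1 - e / 2)) = ENNReal.ofReal Z := by
    rw [hZ, ENNReal.ofReal_toReal hsum]
  set C1' : ℝ := max C1 0 with hC1'
  have hC1n : 0 ≤ C1' := le_max_right _ _
  set C0' : ℝ := max C0 0 with hC0'
  have hC0n : 0 ≤ C0' := le_max_right _ _
  set D : ℝ := C0' * (C1' * 2 ^ (3 * θ / 2 + e / 4)) * 2 ^ (-(s + e)) * Z with hD
  have hD0 : 0 ≤ D := by positivity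
  refine ⟨1 + C0' + D, by linarith, ?_⟩
  intro ν B hB hν t U hU ho X hX
  set C : ℝ := 1 + C0' + D with hC
  have hC1le : 1 ≤ C := by linarith
  -- exceptional forms of the window k
  have hexc : ∀ k : ℕ, 1 ≤ k → ∃ F : Finset ℕ, (F.card : ℝ) ≤ C0' * (k : ℝ) ^ (1 / 2 + e / 4) ∧
      ∀ j, j ∈ F ↔ ((k : ℝ) ≤ t j ∧ t j ≤ k + 1) ∧ ∃ z ∈ K, C0 * (k : ℝ) ^ (3 / 8 : ℝ) < ‖U j z‖ := by
    intro k hk
    have hk1 : (1 : ℝ) ≤ k := by exact_mod_cast hk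
    refine exc_finite (T := (k : ℝ)) ?_ hU ho
    intro n t' U' h1 h2 h3 h4
    have h5 := hC0 k hk1 n t' U' h1 h2 h3 (by simpa using h4)
    have e1 : (1 / 2 + 4 * 0 + e / 4 : ℝ) = 1 / 2 + e / 4 := by ring
    rw [e1] at h5
    exact h5.trans (mul_le_mul_of_nonneg_right (le_max_left _ _) (Real.rpow_nonneg (by linarith) _))
  choose! F hF1 hF2 using hexc
  set A : ℕ → Set ℂ := fun j => K ∩ {z | C * (t j) ^ a < ‖U j z‖} with hA
  set k0 : ℕ := ⌊X⌋₊ with hk0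
  have hk01 : 1 ≤ k0 := (Nat.one_le_floor_iff X).2 hX
  -- covering
  have hcov : {z | z ∈ K ∧ ∃ j, X ≤ t j ∧ C * (t j) ^ a < ‖U j z‖} ⊆ ⋃ i : ℕ, ⋃ j ∈ F (k0 + i), A j := by
    rintro z ⟨hzK, j, hj, hz⟩
    have ht0 : 0 ≤ t j := by linarith
    have hfl : k0 ≤ ⌊t j⌋₊ := Nat.floor_mono hj
    obtain ⟨i, hi⟩ := Nat.exists_eq_add_of_le hfl
    rw [Set.mem_iUnion]
    refine ⟨i, ?_⟩
    rw [Set.mem_iUnion₂]
    refine ⟨j, ?_, hzK, hz⟩
    have hk1 : 1 ≤ k0 + i := by omega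
    rw [hF2 _ hk1, ← hi]
    have f1 : ((⌊t j⌋₊ : ℕ) : ℝ) ≤ t j := Nat.floor_le ht0
    have f2 : t j ≤ (⌊t j⌋₊ : ℕ) + 1 := (Nat.lt_floor_add_one (t j)).le
    refine ⟨⟨f1, f2⟩, z, hzK, lt_of_le_of_lt ?_ hz⟩
    have f3 : (1 : ℝ) ≤ ((⌊t j⌋₊ : ℕ) : ℝ) := by exact_mod_cast hk01.trans hfl
    have f4 : ((⌊t j⌋₊ : ℕ) : ℝ) ^ (3 / 8 : ℝ) ≤ (t j) ^ a :=
      (Real.rpow_le_rpow (by linarith) f1 (by norm_num)).trans
        (Real.rpow_le_rpow_of_exponent_le (by linarith) ha38)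
    have f5 : C0 ≤ C := (le_max_left C0 0).trans (by linarith)
    have f6 : 0 ≤ ((⌊t j⌋₊ : ℕ) : ℝ) ^ (3 / 8 : ℝ) := Real.rpow_nonneg (by linarith) _
    calc C0 * ((⌊t j⌋₊ : ℕ) : ℝ) ^ (3 / 8 : ℝ) ≤ C * ((⌊t j⌋₊ : ℕ) : ℝ) ^ (3 / 8 : ℝ) :=
          mul_le_mul_of_nonneg_right f5 f6
      _ ≤ C * (t j) ^ a := mul_le_mul_of_nonneg_left f4 (by linarith)
  -- one form
  have hone : ∀ k : ℕ, 1 ≤ k → ∀ j ∈ F k, ν (A j) ≤
      ENNReal.ofReal (C1' * B * 2 ^ (3 * θ / 2 + e / 4) * (k : ℝ) ^ (3 * θ / 2 + e / 4 - 6 * θ * a)) := by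
    intro k hk j hj
    have hk1 : (1 : ℝ) ≤ k := by exact_mod_cast hk
    obtain ⟨⟨h1, h2⟩, -⟩ := (hF2 k hk j).1 hj
    have ht1 : 1 ≤ t j := hk1.trans h1
    have hCt : 0 < C * (t j) ^ a := mul_pos (by linarith) (Real.rpow_pos_of_pos (by linarith) _)
    have h3 := hC1 (t j) ht1 (U j) (hU j) ν B hB (fun w ρ hρ => hν w ρ (lt_of_lt_of_le (by positivity) hρ))
    have h3' : ∫⁻ z in K, ENNReal.ofReal (‖U j z‖ ^ (6 * θ)) ∂ν ≤
        ENNReal.ofReal (C1' * B * (t j) ^ (3 * θ / 2 + e / 4)) := by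
      refine h3.trans (ENNReal.ofReal_le_ofReal ?_)
      exact mul_le_mul_of_nonneg_right (mul_le_mul_of_nonneg_right (le_max_left _ _) hB)
        (Real.rpow_nonneg (by linarith) _)
    refine (markov hK hKU hθ (hU j) hCt h3').trans (ENNReal.ofReal_le_ofReal ?_)
    exact num_window (ε1 := e / 4) hk1 h1 h2 hθ ha0 (by linarith) hC1n hB hC1le
  -- one window
  have hwin : ∀ i : ℕ, ν (⋃ j ∈ F (k0 + i), A j) ≤ ENNReal.ofReal
      (C0' * (C1' * 2 ^ (3 * θ / 2 + e / 4)) * B * ((k0 : ℝ) ^ (s + e))) *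
      ENNReal.ofReal (((k0 + i : ℕ) : ℝ) ^ (-1 - e / 2)) := by
    intro i
    have hk : 1 ≤ k0 + i := by omega
    have hk1 : (1 : ℝ) ≤ ((k0 + i : ℕ) : ℝ) := by exact_mod_cast hk
    have hkp : (0 : ℝ) < ((k0 + i : ℕ) : ℝ) := by linarith
    have hk0p : (0 : ℝ) < (k0 : ℝ) := by exact_mod_cast hk01
    refine (measure_biUnion_finset_le _ _).trans ((Finset.sum_le_card_nsmul _ _ _ (hone _ hk)).trans ?_)
    rw [nsmul_eq_mul, ← ENNReal.ofReal_natCast, ← ENNReal.ofReal_mul (Nat.cast_nonneg _),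
      ← ENNReal.ofReal_mul (by positivity)]
    refine ENNReal.ofReal_le_ofReal ?_
    have h1 := hF1 _ hk
    have h2 : 0 ≤ C1' * B * 2 ^ (3 * θ / 2 + e / 4) *
        ((k0 + i : ℕ) : ℝ) ^ (3 * θ / 2 + e / 4 - 6 * θ * a) := by positivity
    have h3 : ((k0 + i : ℕ) : ℝ) ^ (1 / 2 + e / 4) *
        ((k0 + i : ℕ) : ℝ) ^ (3 * θ / 2 + e / 4 - 6 * θ * a) =
        ((k0 + i : ℕ) : ℝ) ^ (s + e) * ((k0 + i : ℕ) : ℝ) ^ (-1 - e / 2) := by
      rw [← Real.rpow_add hkp, ← Real.rpow_add hkp, hs]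
      congr 1
      ring
    have h4 : ((k0 + i : ℕ) : ℝ) ^ (s + e) ≤ (k0 : ℝ) ^ (s + e) :=
      Real.rpow_le_rpow_of_nonpos hk0p (by push_cast; linarith [Nat.cast_nonneg (α := ℝ) i]) hese.le
    calc ((F (k0 + i)).card : ℝ) * (C1' * B * 2 ^ (3 * θ / 2 + e / 4) *
          ((k0 + i : ℕ) : ℝ) ^ (3 * θ / 2 + e / 4 - 6 * θ * a))
        ≤ (C0' * ((k0 + i : ℕ) : ℝ) ^ (1 / 2 + e / 4)) * (C1' * B * 2 ^ (3 * θ / 2 + e / 4) *
          ((k0 + i : ℕ) : ℝ) ^ (3 * θ / 2 + e / 4 - 6 * θ * a)) := mul_le_mul_of_nonneg_right h1 h2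
      _ = C0' * (C1' * 2 ^ (3 * θ / 2 + e / 4)) * B * (((k0 + i : ℕ) : ℝ) ^ (1 / 2 + e / 4) *
          ((k0 + i : ℕ) : ℝ) ^ (3 * θ / 2 + e / 4 - 6 * θ * a)) := by ring
      _ = C0' * (C1' * 2 ^ (3 * θ / 2 + e / 4)) * B * (((k0 + i : ℕ) : ℝ) ^ (s + e)) *
          ((k0 + i : ℕ) : ℝ) ^ (-1 - e / 2) := by rw [h3]; ring
      _ ≤ _ := by
          refine mul_le_mul_of_nonneg_right ?_ (Real.rpow_nonneg hkp.le _)
          exact mul_le_mul_of_nonneg_left h4 (by positivity)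
  -- sum
  have hX2 : X / 2 ≤ (k0 : ℝ) := by
    have h1 := Nat.lt_floor_add_one X
    have h2 : (1 : ℝ) ≤ (k0 : ℝ) := by exact_mod_cast hk01
    linarith
  have hXe : (k0 : ℝ) ^ (s + e) ≤ 2 ^ (-(s + e)) * X ^ (s + ε) := by
    have h1 : (k0 : ℝ) ^ (s + e) ≤ (X / 2) ^ (s + e) :=
      Real.rpow_le_rpow_of_nonpos (by linarith) hX2 hese.le
    have h2 : (X / 2) ^ (s + e) = 2 ^ (-(s + e)) * X ^ (s + e) := by
      rw [Real.div_rpow (by linarith) (by norm_num), Real.rpow_neg (by norm_num)]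
      field_simp
    rw [h2] at h1
    refine h1.trans (mul_le_mul_of_nonneg_left ?_ (by positivity))
    exact Real.rpow_le_rpow_of_exponent_le hX (by linarith)
  calc ν {z | z ∈ K ∧ ∃ j, X ≤ t j ∧ C * (t j) ^ a < ‖U j z‖}
      ≤ ν (⋃ i : ℕ, ⋃ j ∈ F (k0 + i), A j) := measure_mono hcov
    _ ≤ ∑' i : ℕ, ν (⋃ j ∈ F (k0 + i), A j) := measure_iUnion_le _
    _ ≤ ∑' i : ℕ, ENNReal.ofReal (C0' * (C1' * 2 ^ (3 * θ / 2 + e / 4)) * B * ((k0 : ℝ) ^ (s + e))) *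
        ENNReal.ofReal (((k0 + i : ℕ) : ℝ) ^ (-1 - e / 2)) := ENNReal.tsum_le_tsum hwin
    _ = ENNReal.ofReal (C0' * (C1' * 2 ^ (3 * θ / 2 + e / 4)) * B * ((k0 : ℝ) ^ (s + e))) *
        ∑' i : ℕ, ENNReal.ofReal (((k0 + i : ℕ) : ℝ) ^ (-1 - e / 2)) := ENNReal.tsum_mul_left
    _ ≤ ENNReal.ofReal (C0' * (C1' * 2 ^ (3 * θ / 2 + e / 4)) * B * ((k0 : ℝ) ^ (s + e))) *
        ∑' n : ℕ, ENNReal.ofReal ((n : ℝ) ^ (-1 - e / 2)) := by
          refine mul_le_mul_right ?_ _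
          exact ENNReal.tsum_comp_le_tsum_of_injective (fun x y h => by simpa using h : Function.Injective
            fun i : ℕ => k0 + i) (fun n : ℕ => ENNReal.ofReal ((n : ℝ) ^ (-1 - e / 2)))
    _ = ENNReal.ofReal (C0' * (C1' * 2 ^ (3 * θ / 2 + e / 4)) * B * ((k0 : ℝ) ^ (s + e)) * Z) := by
          rw [hZe, ← ENNReal.ofReal_mul (by positivity)]
    _ ≤ ENNReal.ofReal (C * B * X ^ (s + ε)) := by
          refine ENNReal.ofReal_le_ofReal ?_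
          have hXp : 0 ≤ X ^ (s + ε) := Real.rpow_nonneg (by linarith) _
          calc C0' * (C1' * 2 ^ (3 * θ / 2 + e / 4)) * B * ((k0 : ℝ) ^ (s + e)) * Z
              ≤ C0' * (C1' * 2 ^ (3 * θ / 2 + e / 4)) * B * (2 ^ (-(s + e)) * X ^ (s + ε)) * Z := by
                refine mul_le_mul_of_nonneg_right (mul_le_mul_of_nonneg_left hXe (by positivity)) hZ0
            _ = D * (B * X ^ (s + ε)) := by rw [hD]; ring
            _ ≤ C * (B * X ^ (s + ε)) := mul_le_mul_of_nonneg_right (by linarith) (mul_nonneg hB hXp)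
            _ = C * B * X ^ (s + ε) := by ring

/-- the compact exhaustion of the upper half plane -/
def KK (n : ℕ) : Set ℂ := {z | ‖z‖ ≤ n + 1 ∧ 1 / ((n : ℝ) + 1) ≤ z.im}

lemma kk_compact (n : ℕ) : IsCompact (KK n) := by
  refine Metric.isCompact_of_isClosed_isBounded ?_ ?_
  · exact (isClosed_le continuous_norm continuous_const).inter
      (isClosed_le continuous_const Complex.continuous_im)
  · refine (Metric.isBounded_closedBall (x := (0 : ℂ)) (r := (n : ℝ) + 1)).subset fun z hz => ?_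
    simpa using hz.1

lemma kk_sub (n : ℕ) : KK n ⊆ {z : ℂ | 0 < z.im} := fun z hz =>
  lt_of_lt_of_le (by positivity : (0 : ℝ) < 1 / ((n : ℝ) + 1)) hz.2

lemma mem_kk {z : ℂ} (hz : 0 < z.im) : ∃ n : ℕ, z ∈ KK n := by
  obtain ⟨n, hn⟩ := exists_nat_ge (max ‖z‖ (1 / z.im))
  have hn0 : (0 : ℝ) ≤ n := Nat.cast_nonneg n
  refine ⟨n, ?_, ?_⟩
  · have := (le_max_left ‖z‖ (1 / z.im)).trans hn
    linarith
  · have h1 := (le_max_right ‖z‖ (1 / z.im)).trans hn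
    rw [div_le_iff₀ hz] at h1
    rw [div_le_iff₀ (by positivity)]
    nlinarith

/-- **At almost every point.** -/
theorem almost_every_point (θ a : ℝ) (hθ : 1 ≤ θ) (hθ2 : θ ≤ 2) (ha : (1 + θ) / (4 * θ) < a)
    (ν : Measure ℂ) (B : ℝ) (hB : 0 ≤ B)
    (hν : ∀ w : ℂ, ∀ ρ : ℝ, 0 < ρ → ν (Metric.closedBall w ρ) ≤ ENNReal.ofReal (B * ρ ^ θ))
    (t : ℕ → ℝ) (U : ℕ → ℂ → ℂ) (ht : ∀ j, 1 ≤ t j) (hU : ∀ j, IsHeckeMaass (t j) (U j))
    (ho : ∀ i j, i ≠ j → OrthForms (U i) (U j)) :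
    ∀ᵐ z ∂ν, 0 < z.im → ∃ C : ℝ, ∀ j, ‖U j z‖ ≤ C * (t j) ^ a := by
  have hθ0 : 0 < θ := by linarith
  have ha' : 1 + θ < 4 * θ * a := by
    rw [div_lt_iff₀ (by positivity)] at ha
    linarith
  set s : ℝ := 3 * (1 + θ) / 2 - 6 * θ * a with hs
  have hs0 : s < 0 := by
    rw [hs]
    linarith
  have ha0 : 0 ≤ a := by
    by_contra h
    push Not at h
    have : 4 * θ * a < 0 := mul_neg_of_pos_of_neg (by positivity) h
    linarith
  -- one compact set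
  have hone : ∀ n : ℕ, ∀ᵐ z ∂ν, z ∈ KK n → ∃ C : ℝ, ∀ j, ‖U j z‖ ≤ C * (t j) ^ a := by
    intro n
    obtain ⟨C, hC1, hC⟩ := large_points (KK n) (kk_compact n) (kk_sub n) θ a (-s / 2) hθ hθ2 ha (by linarith)
    obtain ⟨D, hD, hsup⟩ := sup_bound (KK n) (kk_compact n) (kk_sub n)
    have hX : ∀ m : ℕ, ν {z | z ∈ KK n ∧ ∃ j, ((m : ℝ) + 1) ≤ t j ∧ C * (t j) ^ a < ‖U j z‖} ≤
        ENNReal.ofReal (C * B * ((m : ℝ) + 1) ^ (s / 2)) := by
      intro m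
      have h1 := hC ν B hB hν t U hU ho ((m : ℝ) + 1) (by linarith [Nat.cast_nonneg (α := ℝ) m])
      have e1 : 3 * (1 + θ) / 2 - 6 * θ * a + -s / 2 = s / 2 := by rw [← hs]; ring
      rw [e1] at h1
      exact h1
    have hlim : Filter.Tendsto (fun m : ℕ => ENNReal.ofReal (C * B * ((m : ℝ) + 1) ^ (s / 2))) Filter.atTop
        (nhds 0) := by
      rw [← ENNReal.ofReal_zero]
      refine ENNReal.tendsto_ofReal ?_
      have h1 : Filter.Tendsto (fun m : ℕ => ((m : ℝ) + 1) ^ (s / 2)) Filter.atTop (nhds 0) := by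
        have h2 : Filter.Tendsto (fun x : ℝ => x ^ (s / 2)) Filter.atTop (nhds 0) := by
          have := tendsto_rpow_neg_atTop (y := -(s / 2)) (by linarith)
          simpa using this
        exact h2.comp (Filter.tendsto_atTop_add_const_right _ _ tendsto_natCast_atTop_atTop)
      have h3 := h1.const_mul (C * B)
      rwa [mul_zero] at h3
    have hnull : ν (⋂ m : ℕ, {z | z ∈ KK n ∧ ∃ j, ((m : ℝ) + 1) ≤ t j ∧ C * (t j) ^ a < ‖U j z‖}) = 0 := by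
      refine le_antisymm (ge_of_tendsto' hlim fun m => (measure_mono (Set.iInter_subset _ m)).trans (hX m))
        zero_le
    rw [← compl_mem_ae_iff] at hnull
    filter_upwards [hnull] with z hz hzK
    rw [Set.mem_compl_iff, Set.mem_iInter] at hz
    push Not at hz
    obtain ⟨m, hm⟩ := hz
    have hm' : ∀ j, ((m : ℝ) + 1) ≤ t j → ‖U j z‖ ≤ C * (t j) ^ a := by
      intro j hj
      by_contra hc
      push Not at hc
      exact hm ⟨hzK, j, hj, hc⟩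
    refine ⟨max C (D * ((m : ℝ) + 1)), fun j => ?_⟩
    have htj := ht j
    have hp : 1 ≤ (t j) ^ a := Real.one_le_rpow htj ha0
    rcases le_or_gt ((m : ℝ) + 1) (t j) with h | h
    · exact (hm' j h).trans (mul_le_mul_of_nonneg_right (le_max_left _ _) (by linarith))
    · have h1 := hsup (t j) htj (U j) (hU j) z hzK
      have h2 : D * t j ≤ D * ((m : ℝ) + 1) := mul_le_mul_of_nonneg_left h.le (by linarith)
      have h3 : D * ((m : ℝ) + 1) ≤ max C (D * ((m : ℝ) + 1)) := le_max_right _ _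
      have h4 : 0 ≤ max C (D * ((m : ℝ) + 1)) := le_trans (by positivity) h3
      nlinarith
  have hall := ae_all_iff.2 hone
  filter_upwards [hall] with z hz hzi
  obtain ⟨n, hn⟩ := mem_kk hzi
  exact hz n hn

end Pool.Agent.H19.AE
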